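import Mathlib

set_option autoImplicit false

/-! Project TQ, job LOV: counting squarefree numbers in a class and coprime pairs. -/

namespace Pool.Agent.Q26.TQ

open Finset

/-- numbers in a class, upper bound -/
lemma cls_le (a b v r : ℕ) (hr : 0 < r) (hab : a ≤ b) :
    (((Ioc a b).filter (fun n => n ≡ v [MOD r])).card : ℝ) ≤ ((b : ℝ) - a) / r + 1 := by
  have h1 := Nat.Ioc_filter_modEq_card a b hr v
  have hr0 : (0 : ℚ) < r := by exact_mod_cast hr
  have h2 : ((((Ioc a b).filter (fun n => n ≡ v [MOD r])).card : ℤ) : ℚ) ≤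
      ((b : ℚ) - a) / r + 1 := by
    rw [h1]
    have h3 := Int.floor_le (((b : ℚ) - v) / r)
    have h4 := Int.lt_floor_add_one (((a : ℚ) - v) / r)
    have h5 : ((b : ℚ) - a) / r = ((b : ℚ) - v) / r - ((a : ℚ) - v) / r := by ring
    have h6 : (0 : ℚ) ≤ ((b : ℚ) - a) / r := by
      refine div_nonneg ?_ hr0.le
      have : (a : ℚ) ≤ b := by exact_mod_cast hab
      linarith
    rw [Int.cast_max]
    refine max_le ?_ ?_
    · push_cast
      linarith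
    · push_cast
      linarith
  have h7 : ((((Ioc a b).filter (fun n => n ≡ v [MOD r])).card : ℚ) : ℝ) ≤
      ((((b : ℚ) - a) / r + 1 : ℚ) : ℝ) := by exact_mod_cast h2
  push_cast at h7
  exact h7

/-- numbers in a class, lower bound -/
lemma cls_ge (a b v r : ℕ) (hr : 0 < r) :
    ((b : ℝ) - a) / r - 1 ≤ (((Ioc a b).filter (fun n => n ≡ v [MOD r])).card : ℝ) := by
  have h1 := Nat.Ioc_filter_modEq_card a b hr v
  have h2 : ((b : ℚ) - a) / r - 1 ≤
      ((((Ioc a b).filter (fun n => n ≡ v [MOD r])).card : ℤ) : ℚ) := by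
    rw [h1]
    have h3 := Int.floor_le (((a : ℚ) - v) / r)
    have h4 := Int.lt_floor_add_one (((b : ℚ) - v) / r)
    have h5 : ((b : ℚ) - a) / r = ((b : ℚ) - v) / r - ((a : ℚ) - v) / r := by ring
    rw [Int.cast_max]
    refine le_trans ?_ (le_max_left _ _)
    push_cast
    linarith
  have h7 : ((((b : ℚ) - a) / r - 1 : ℚ) : ℝ) ≤
      ((((Ioc a b).filter (fun n => n ≡ v [MOD r])).card : ℚ) : ℝ) := by exact_mod_cast h2
  push_cast at h7
  exact h7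

/-- multiples of `q` in a class -/
lemma cls_dvd (a b r m q : ℕ) (hm : 0 < m) (hq : 0 < q) (hc : m.Coprime q) (hab : a ≤ b) :
    (((Ioc a b).filter (fun n => n ≡ r [MOD m] ∧ q ∣ n)).card : ℝ) ≤
      ((b : ℝ) - a) / (m * q) + 1 := by
  obtain ⟨v, hv1, hv2⟩ := Nat.chineseRemainder hc r 0
  have h1 : (Ioc a b).filter (fun n => n ≡ r [MOD m] ∧ q ∣ n) =
      (Ioc a b).filter (fun n => n ≡ v [MOD (m * q)]) := by
    refine filter_congr fun n _ => ?_
    rw [← Nat.modEq_and_modEq_iff_modEq_mul hc]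
    constructor
    · rintro ⟨h2, h3⟩
      exact ⟨h2.trans hv1.symm, ((Nat.modEq_zero_iff_dvd.2 h3).trans hv2.symm)⟩
    · rintro ⟨h2, h3⟩
      exact ⟨h2.trans hv1, Nat.modEq_zero_iff_dvd.1 (h3.trans hv2)⟩
  rw [h1]
  have h2 := cls_le a b v (m * q) (Nat.mul_pos hm hq) hab
  push_cast at h2
  exact h2

lemma sum_odd_sq (K : ℕ) : ∑ k ∈ Icc 1 K, 1 / ((2 * (k : ℝ) + 1) ^ 2) ≤ 1 / 4 := by
  have key : ∑ k ∈ Icc 1 K, 1 / ((2 * (k : ℝ) + 1) ^ 2) ≤ 1 / 4 - 1 / (4 * ((K : ℝ) + 1)) := by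
    induction K with
    | zero => simp
    | succ K ih =>
      rw [sum_Icc_succ_top (by omega)]
      have h1 : 1 / ((2 * ((K + 1 : ℕ) : ℝ) + 1) ^ 2) ≤
          1 / (4 * ((K : ℝ) + 1)) - 1 / (4 * (((K + 1 : ℕ) : ℝ) + 1)) := by
        push_cast
        have hK : (0 : ℝ) ≤ K := Nat.cast_nonneg _
        have h2 : 1 / (4 * ((K : ℝ) + 1)) - 1 / (4 * ((K : ℝ) + 1 + 1)) =
            1 / (4 * ((K : ℝ) + 1) * ((K : ℝ) + 2)) := by
          field_simp
          ring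
        rw [h2]
        refine one_div_le_one_div_of_le (by positivity) ?_
        nlinarith
      linarith
  have : (0 : ℝ) ≤ 1 / (4 * ((K : ℝ) + 1)) := by positivity
  linarith

lemma sum_odd_inv (K : ℕ) : ∑ k ∈ Icc 1 K, 1 / (2 * (k : ℝ) + 1) ≤ Real.sqrt K / 2 := by
  have h1 := sq_sum_le_card_mul_sum_sq (s := Icc 1 K) (f := fun k : ℕ => 1 / (2 * (k : ℝ) + 1))
  have h2 : ∑ k ∈ Icc 1 K, (1 / (2 * (k : ℝ) + 1)) ^ 2 ≤ 1 / 4 := by
    refine le_trans (le_of_eq ?_) (sum_odd_sq K)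
    refine sum_congr rfl fun k _ => ?_
    rw [div_pow, one_pow]
  rw [Nat.card_Icc, Nat.add_sub_cancel] at h1
  have h3 : (∑ k ∈ Icc 1 K, 1 / (2 * (k : ℝ) + 1)) ^ 2 ≤ (Real.sqrt K / 2) ^ 2 := by
    rw [div_pow, Real.sq_sqrt (Nat.cast_nonneg _)]
    calc _ ≤ (K : ℝ) * ∑ k ∈ Icc 1 K, (1 / (2 * (k : ℝ) + 1)) ^ 2 := h1
      _ ≤ (K : ℝ) * (1 / 4) := mul_le_mul_of_nonneg_left h2 (Nat.cast_nonneg _)
      _ = _ := by ring
  exact le_of_sq_le_sq h3 (by positivity)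

/-- an odd number which is not squarefree -/
lemma not_sqf {n : ℕ} (hn : Odd n) (h : ¬ Squarefree n) : ∃ k, 1 ≤ k ∧ (2 * k + 1) ^ 2 ∣ n := by
  unfold Squarefree at h
  push Not at h
  obtain ⟨x, hx, hu⟩ := h
  have hxo : Odd x := Odd.of_dvd_nat hn ((dvd_mul_right x x).trans hx)
  obtain ⟨k, hk⟩ := hxo
  refine ⟨k, ?_, ?_⟩
  · by_contra h0
    have : x = 1 := by omega
    exact hu (by rw [this]; exact isUnit_one)
  · rw [← hk, sq]
    exact hx

/-- squarefree numbers in an odd class -/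
theorem sqf_ge (a b r m : ℕ) (hm : m = 2 ∨ m = 4) (hr : Odd r) (hab : a ≤ b) :
    3 / 4 * (((b : ℝ) - a) / m) - 1 - Real.sqrt b ≤
      (((Ioc a b).filter (fun n => n ≡ r [MOD m] ∧ Squarefree n)).card : ℝ) := by
  have hm0 : 0 < m := by omega
  have hm2 : 2 ∣ m := by
    rcases hm with h | h
    · rw [h]
    · rw [h]; norm_num
  have hodd : ∀ n, n ≡ r [MOD m] → Odd n := by
    intro n hn
    have h1 : n ≡ r [MOD 2] := hn.of_dvd hm2
    rw [Nat.odd_iff]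
    have h2 : n % 2 = r % 2 := h1
    rw [h2, ← Nat.odd_iff]
    exact hr
  have hcop : ∀ k : ℕ, m.Coprime ((2 * k + 1) ^ 2) := by
    intro k
    refine Nat.Coprime.pow_right 2 ?_
    have h2 : Nat.Coprime 2 (2 * k + 1) := by
      rw [Nat.coprime_two_left]
      exact ⟨k, rfl⟩
    rcases hm with h | h
    · rw [h]; exact h2
    · rw [h, show (4 : ℕ) = 2 * 2 by norm_num]
      exact Nat.Coprime.mul_left h2 h2
  have h1 : (Ioc a b).filter (fun n => n ≡ r [MOD m]) ⊆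
      (Ioc a b).filter (fun n => n ≡ r [MOD m] ∧ Squarefree n) ∪
      (Icc 1 (Nat.sqrt b)).biUnion (fun k => (Ioc a b).filter
        (fun n => n ≡ r [MOD m] ∧ (2 * k + 1) ^ 2 ∣ n)) := by
    intro n hn
    rw [mem_filter, mem_Ioc] at hn
    obtain ⟨⟨hn1, hn2⟩, hn3⟩ := hn
    rw [mem_union]
    by_cases hs : Squarefree n
    · left
      rw [mem_filter, mem_Ioc]
      exact ⟨⟨hn1, hn2⟩, hn3, hs⟩
    · right
      obtain ⟨k, hk, hd⟩ := not_sqf (hodd n hn3) hs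
      rw [mem_biUnion]
      refine ⟨k, ?_, ?_⟩
      · rw [mem_Icc, Nat.le_sqrt']
        refine ⟨hk, ?_⟩
        have h2 := Nat.le_of_dvd (by omega) hd
        nlinarith
      · rw [mem_filter, mem_Ioc]
        exact ⟨⟨hn1, hn2⟩, hn3, hd⟩
  have h2 := (card_le_card h1).trans (card_union_le _ _)
  have h3 := h2.trans (add_le_add le_rfl card_biUnion_le)
  have h4 : (((Ioc a b).filter (fun n => n ≡ r [MOD m])).card : ℝ) ≤
      (((Ioc a b).filter (fun n => n ≡ r [MOD m] ∧ Squarefree n)).card : ℝ) +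
      ∑ k ∈ Icc 1 (Nat.sqrt b), (((Ioc a b).filter
        (fun n => n ≡ r [MOD m] ∧ (2 * k + 1) ^ 2 ∣ n)).card : ℝ) := by exact_mod_cast h3
  have h5 := cls_ge a b r m hm0
  have h6 : ∑ k ∈ Icc 1 (Nat.sqrt b), (((Ioc a b).filter
        (fun n => n ≡ r [MOD m] ∧ (2 * k + 1) ^ 2 ∣ n)).card : ℝ) ≤
      ((b : ℝ) - a) / m * (1 / 4) + Real.sqrt b := by
    have hba : (0 : ℝ) ≤ ((b : ℝ) - a) / m := by
      refine div_nonneg ?_ (Nat.cast_nonneg _)
      have : (a : ℝ) ≤ b := by exact_mod_cast hab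
      linarith
    calc _ ≤ ∑ k ∈ Icc 1 (Nat.sqrt b), (((b : ℝ) - a) / m * (1 / ((2 * (k : ℝ) + 1) ^ 2)) + 1) := by
          refine sum_le_sum fun k _ => ?_
          have h7 := cls_dvd a b r m ((2 * k + 1) ^ 2) hm0 (by positivity) (hcop k) hab
          push_cast at h7
          refine h7.trans (le_of_eq ?_)
          rw [div_mul_div_comm, mul_one]
      _ = ((b : ℝ) - a) / m * ∑ k ∈ Icc 1 (Nat.sqrt b), 1 / ((2 * (k : ℝ) + 1) ^ 2) +
            (Nat.sqrt b : ℝ) := by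
          rw [sum_add_distrib, ← mul_sum]
          simp
      _ ≤ _ := by
          refine add_le_add (mul_le_mul_of_nonneg_left (sum_odd_sq _) hba) ?_
          exact Real.nat_sqrt_le_real_sqrt
  linarith

/-- pairs with a common factor -/
theorem pairs (X a b r : ℕ) (hr : Odd r) (hab : a ≤ b) (S T : Finset ℕ)
    (hS : S = (Ioc 0 X).filter (fun n => n ≡ r [MOD 4] ∧ Squarefree n))
    (hT : T = (Ioc a b).filter (fun n => n ≡ 1 [MOD 2] ∧ Squarefree n)) :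
    ∑ n ∈ S, ∑ s ∈ T, (if n.Coprime s then (0 : ℝ) else 1) ≤
      X * ((b : ℝ) - a) / 32 + (X / 4 + ((b : ℝ) - a) / 2) * (Real.sqrt X / 2) + X := by
  have hba : (0 : ℝ) ≤ (b : ℝ) - a := by
    have : (a : ℝ) ≤ b := by exact_mod_cast hab
    linarith
  have hSodd : ∀ n ∈ S, Odd n := by
    intro n hn
    rw [hS, mem_filter] at hn
    have h1 : n ≡ r [MOD 2] := hn.2.1.of_dvd (by norm_num)
    rw [Nat.odd_iff]
    have h2 : n % 2 = r % 2 := h1
    rw [h2, ← Nat.odd_iff]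
    exact hr
  have h1 : ∀ n ∈ S, ∀ s ∈ T, (if n.Coprime s then (0 : ℝ) else 1) ≤
      ∑ k ∈ Icc 1 X, (if 2 * k + 1 ∣ n then (1 : ℝ) else 0) *
        (if 2 * k + 1 ∣ s then (1 : ℝ) else 0) := by
    intro n hn s _
    split_ifs with hc
    · exact sum_nonneg fun k _ => by split_ifs <;> norm_num
    · have hg : Nat.gcd n s ≠ 1 := hc
      have hgn : Nat.gcd n s ∣ n := Nat.gcd_dvd_left _ _
      have hgo : Odd (Nat.gcd n s) := Odd.of_dvd_nat (hSodd n hn) hgn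
      obtain ⟨k, hk⟩ := hgo
      have hn' := hn
      rw [hS, mem_filter, mem_Ioc] at hn'
      have hle := Nat.le_of_dvd (by omega) hgn
      have hkm : k ∈ Icc 1 X := by
        rw [mem_Icc]
        omega
      have h2 : (if 2 * k + 1 ∣ n then (1 : ℝ) else 0) * (if 2 * k + 1 ∣ s then (1 : ℝ) else 0) = 1 := by
        rw [if_pos (hk ▸ hgn), if_pos (hk ▸ Nat.gcd_dvd_right n s), one_mul]
      refine h2.symm.le.trans ?_
      exact single_le_sum (f := fun k => (if 2 * k + 1 ∣ n then (1 : ℝ) else 0) *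
        (if 2 * k + 1 ∣ s then (1 : ℝ) else 0)) (fun k _ => by
          split_ifs <;> norm_num) hkm
  have h2 : ∑ n ∈ S, ∑ s ∈ T, (if n.Coprime s then (0 : ℝ) else 1) ≤
      ∑ k ∈ Icc 1 X, (∑ n ∈ S, (if 2 * k + 1 ∣ n then (1 : ℝ) else 0)) *
        (∑ s ∈ T, (if 2 * k + 1 ∣ s then (1 : ℝ) else 0)) := by
    refine (sum_le_sum fun n hn => sum_le_sum fun s hs => h1 n hn s hs).trans (le_of_eq ?_)
    have h3 : ∀ n ∈ S, ∑ s ∈ T, ∑ k ∈ Icc 1 X, (if 2 * k + 1 ∣ n then (1 : ℝ) else 0) *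
        (if 2 * k + 1 ∣ s then (1 : ℝ) else 0) = ∑ k ∈ Icc 1 X, (if 2 * k + 1 ∣ n then (1 : ℝ) else 0) *
        ∑ s ∈ T, (if 2 * k + 1 ∣ s then (1 : ℝ) else 0) := by
      intro n _
      rw [sum_comm]
      exact sum_congr rfl fun k _ => (mul_sum _ _ _).symm
    rw [sum_congr rfl h3, sum_comm]
    exact sum_congr rfl fun k _ => (sum_mul _ _ _).symm
  have hcop : ∀ k : ℕ, Nat.Coprime 2 (2 * k + 1) := by
    intro k
    rw [Nat.coprime_two_left]
    exact ⟨k, rfl⟩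
  have hS1 : ∀ k : ℕ, ∑ n ∈ S, (if 2 * k + 1 ∣ n then (1 : ℝ) else 0) ≤
      (X : ℝ) / 4 * (1 / (2 * (k : ℝ) + 1)) + 1 := by
    intro k
    rw [← sum_filter, sum_const, nsmul_eq_mul, mul_one]
    have h3 : S.filter (fun n => 2 * k + 1 ∣ n) ⊆
        (Ioc 0 X).filter (fun n => n ≡ r [MOD 4] ∧ (2 * k + 1) ∣ n) := by
      intro n hn
      rw [hS, mem_filter, mem_filter] at hn
      rw [mem_filter]
      exact ⟨hn.1.1, hn.1.2.1, hn.2⟩
    have h4 : ((S.filter (fun n => 2 * k + 1 ∣ n)).card : ℝ) ≤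
        (((Ioc 0 X).filter (fun n => n ≡ r [MOD 4] ∧ (2 * k + 1) ∣ n)).card : ℝ) := by
      exact_mod_cast card_le_card h3
    refine h4.trans ?_
    have h5 := cls_dvd 0 X r 4 (2 * k + 1) (by norm_num) (by omega)
      (by rw [show (4 : ℕ) = 2 * 2 by norm_num]; exact Nat.Coprime.mul_left (hcop k) (hcop k))
      (Nat.zero_le _)
    push_cast at h5
    rw [sub_zero] at h5
    refine h5.trans (le_of_eq ?_)
    rw [div_mul_div_comm, mul_one]
  have hT1 : ∀ k : ℕ, ∑ n ∈ T, (if 2 * k + 1 ∣ n then (1 : ℝ) else 0) ≤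
      ((b : ℝ) - a) / 2 * (1 / (2 * (k : ℝ) + 1)) + 1 := by
    intro k
    rw [← sum_filter, sum_const, nsmul_eq_mul, mul_one]
    have h3 : T.filter (fun n => 2 * k + 1 ∣ n) ⊆
        (Ioc a b).filter (fun n => n ≡ 1 [MOD 2] ∧ (2 * k + 1) ∣ n) := by
      intro n hn
      rw [hT, mem_filter, mem_filter] at hn
      rw [mem_filter]
      exact ⟨hn.1.1, hn.1.2.1, hn.2⟩
    have h4 : ((T.filter (fun n => 2 * k + 1 ∣ n)).card : ℝ) ≤
        (((Ioc a b).filter (fun n => n ≡ 1 [MOD 2] ∧ (2 * k + 1) ∣ n)).card : ℝ) := by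
      exact_mod_cast card_le_card h3
    refine h4.trans ?_
    have h5 := cls_dvd a b 1 2 (2 * k + 1) (by norm_num) (by omega) (hcop k) hab
    push_cast at h5
    refine h5.trans (le_of_eq ?_)
    rw [div_mul_div_comm, mul_one]
  refine h2.trans ?_
  have hX0 : (0 : ℝ) ≤ X := Nat.cast_nonneg _
  calc ∑ k ∈ Icc 1 X, (∑ n ∈ S, (if 2 * k + 1 ∣ n then (1 : ℝ) else 0)) *
        (∑ s ∈ T, (if 2 * k + 1 ∣ s then (1 : ℝ) else 0))
      ≤ ∑ k ∈ Icc 1 X, ((X : ℝ) / 4 * (1 / (2 * (k : ℝ) + 1)) + 1) *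
          (((b : ℝ) - a) / 2 * (1 / (2 * (k : ℝ) + 1)) + 1) := by
        refine sum_le_sum fun k _ => mul_le_mul (hS1 k) (hT1 k) ?_ (by positivity)
        exact sum_nonneg fun s _ => by split_ifs <;> norm_num
    _ = X * ((b : ℝ) - a) / 8 * ∑ k ∈ Icc 1 X, 1 / ((2 * (k : ℝ) + 1) ^ 2) +
          (X / 4 + ((b : ℝ) - a) / 2) * ∑ k ∈ Icc 1 X, 1 / (2 * (k : ℝ) + 1) + X := by
        rw [mul_sum, mul_sum, ← sum_add_distrib]
        have h8 : ∀ k ∈ Icc 1 X, ((X : ℝ) / 4 * (1 / (2 * (k : ℝ) + 1)) + 1) *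
            (((b : ℝ) - a) / 2 * (1 / (2 * (k : ℝ) + 1)) + 1) =
            (X * ((b : ℝ) - a) / 8 * (1 / ((2 * (k : ℝ) + 1) ^ 2)) +
              (X / 4 + ((b : ℝ) - a) / 2) * (1 / (2 * (k : ℝ) + 1))) + 1 := by
          intro k _
          have h7 : (2 * (k : ℝ) + 1) ≠ 0 := by positivity
          field_simp
          ring
        rw [sum_congr rfl h8, sum_add_distrib]
        simp
    _ ≤ X * ((b : ℝ) - a) / 8 * (1 / 4) +
          (X / 4 + ((b : ℝ) - a) / 2) * (Real.sqrt X / 2) + X := by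
        gcongr
        · exact sum_odd_sq X
        · exact sum_odd_inv X
    _ = _ := by ring

end Pool.Agent.Q26.TQ
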