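import Pool.Agent.Q255.TQ.Stm3

set_option autoImplicit false

/-! Project TQ, job LOW: the mean square of the remainder. -/

namespace Pool.Agent.Q26.TQ

open Finset Filter Topology MeasureTheory Pool.Agent.H306R2.RZ Pool.Agent.Q255.TQ
open Pool.Agent.Q122.FM (kron IsFund)
open Pool.Agent.Q163.GC (ch ch_mul ch_sq int_ch mean_ch)
open Pool.Agent.Q163.RX (cm)

noncomputable section

lemma eq_of_sq {s s' : ℕ} (hs : Squarefree s) (hs' : Squarefree s') (h : IsSquare (s * s')) :
    s = s' := by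
  obtain ⟨r, hr⟩ := h
  refine Nat.eq_of_factorization_eq hs.ne_zero hs'.ne_zero fun p => ?_
  have h1 : (s * s').factorization p = (r * r).factorization p := by rw [hr]
  have hr0 : r ≠ 0 := by
    rintro rfl
    rw [mul_zero] at hr
    exact (mul_ne_zero hs.ne_zero hs'.ne_zero) hr
  rw [Nat.factorization_mul hs.ne_zero hs'.ne_zero, Nat.factorization_mul hr0 hr0] at h1
  simp only [Finsupp.coe_add, Pi.add_apply] at h1
  have h2 := hs.natFactorization_le_one p
  have h3 := hs'.natFactorization_le_one p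
  omega

/-- orthogonality -/
lemma orth {s s' : ℕ} (hs : Squarefree s) (hs' : Squarefree s') :
    ∫ ω, ch ω s * ch ω s' ∂cm = if s = s' then 1 else 0 := by
  by_cases h : s = s'
  · subst h
    rw [if_pos rfl]
    have h1 : ∀ ω, ch ω s * ch ω s = 1 := fun ω => by rw [← sq, ch_sq]
    simp_rw [h1]
    simp
  · rw [if_neg h]
    have h1 : ∀ ω, ch ω s * ch ω s' = ch ω (s * s') := fun ω =>
      (ch_mul ω hs.ne_zero hs'.ne_zero).symm
    simp_rw [h1]
    exact mean_ch (mul_ne_zero hs.ne_zero hs'.ne_zero) fun hsq => h (eq_of_sq hs hs' hsq)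

lemma ms (S : Finset ℕ) (hS : ∀ s ∈ S, Squarefree s) (d : ℕ → ℝ) :
    ∫ ω, (∑ s ∈ S, d s * ch ω s) ^ 2 ∂cm = ∑ s ∈ S, d s ^ 2 := by
  have e1 : ∀ ω, (∑ s ∈ S, d s * ch ω s) ^ 2 =
      ∑ s ∈ S, ∑ s' ∈ S, (d s * d s') * (ch ω s * ch ω s') := by
    intro ω
    rw [sq, Finset.sum_mul_sum]
    refine sum_congr rfl fun s _ => sum_congr rfl fun s' _ => ?_
    ring
  have hint : ∀ s ∈ S, ∀ s' ∈ S, Integrable (fun ω => (d s * d s') * (ch ω s * ch ω s')) cm := by
    intro s hs s' hs'
    have h1 : (fun ω => ch ω s * ch ω s') = fun ω => ch ω (s * s') := by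
      funext ω
      exact (ch_mul ω (hS s hs).ne_zero (hS s' hs').ne_zero).symm
    have h2 : Integrable (fun ω => ch ω s * ch ω s') cm := by
      rw [h1]
      exact int_ch _
    exact h2.const_mul _
  simp_rw [e1]
  rw [integral_finsetSum _ fun s hs => integrable_finsetSum _ fun s' hs' => hint s hs s' hs']
  refine sum_congr rfl fun s hs => ?_
  rw [integral_finsetSum _ fun s' hs' => hint s hs s' hs']
  have h3 : ∀ s' ∈ S, ∫ ω, (d s * d s') * (ch ω s * ch ω s') ∂cm =
      if s = s' then d s * d s' else 0 := by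
    intro s' hs'
    rw [integral_const_mul, orth (hS s hs) (hS s' hs')]
    split_ifs <;> simp
  rw [sum_congr rfl h3, sum_ite_eq, if_pos hs, sq]

lemma sfp_self {s : ℕ} (hs : Squarefree s) : sfp s = s := by
  have h1 : sfp s = s.primeFactors.prod id := by
    unfold sfp
    rw [od_sqf hs]
    rfl
  rw [h1]
  exact Nat.prod_primeFactors_of_squarefree hs

theorem low (hL : S_LOV) : S_LOW := by
  obtain ⟨c, hc, X0, hX0⟩ := hL
  refine ⟨c, hc, max X0 2, ?_⟩
  intro ε hε X N hX hN b
  have hX1 : X0 ≤ X := (le_max_left _ _).trans hX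
  have hX2 : 2 ≤ X := (le_max_right _ _).trans hX
  refine (hX0 ε hε X N hX1 hN).trans ?_
  have hN2 : 32 ≤ N := by
    calc 32 = 2 ^ 5 := by norm_num
      _ ≤ X ^ 5 := Nat.pow_le_pow_left hX2 5
      _ ≤ N := hN
  let K : ℕ → ℝ := fun m => ∑ n ∈ Fs ε X, (kron (ε * (n : ℤ)) m : ℝ)
  let cs : ℕ → ℝ := fun s => ∑ m ∈ (Icc 1 N).filter (fun m => sfp m = s), K m / Real.sqrt m
  let d : ℕ → ℝ := fun s => if s = 1 then cs 1 - b else cs s
  have h1mem : 1 ∈ sqf N := by
    unfold sqf
    rw [mem_filter, mem_Icc]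
    exact ⟨⟨le_rfl, by omega⟩, squarefree_one⟩
  have hY : ∀ ω, ∑ n ∈ Fs ε X, ∑ m ∈ Icc 1 N, ch ω m * (kron (ε * (n : ℤ)) m : ℝ) / Real.sqrt m - b =
      ∑ s ∈ sqf N, d s * ch ω s := by
    intro ω
    have e1 : ∑ n ∈ Fs ε X, ∑ m ∈ Icc 1 N, ch ω m * (kron (ε * (n : ℤ)) m : ℝ) / Real.sqrt m =
        ∑ m ∈ Icc 1 N, K m / Real.sqrt m * ch ω m := by
      rw [sum_comm]
      refine sum_congr rfl fun m _ => ?_
      simp only [K]
      rw [sum_div, sum_mul]
      refine sum_congr rfl fun n _ => ?_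
      ring
    have hmap : ∀ m ∈ Icc 1 N, sfp m ∈ sqf N := by
      intro m hm
      rw [mem_Icc] at hm
      unfold sqf
      rw [mem_filter, mem_Icc]
      exact ⟨⟨sfp_pos _, (sfp_le _ hm.1).trans hm.2⟩, sfp_sqf _⟩
    have e2 : ∑ m ∈ Icc 1 N, K m / Real.sqrt m * ch ω m = ∑ s ∈ sqf N, cs s * ch ω s := by
      rw [← sum_fiberwise_of_maps_to hmap]
      refine sum_congr rfl fun s _ => ?_
      simp only [cs]
      rw [sum_mul]
      refine sum_congr rfl fun m hm => ?_
      rw [mem_filter] at hm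
      rw [← hm.2, ch_sfp]
    rw [e1, e2, ← add_sum_erase _ _ h1mem, ← add_sum_erase _ (fun s => d s * ch ω s) h1mem]
    have e3 : ∑ s ∈ (sqf N).erase 1, d s * ch ω s = ∑ s ∈ (sqf N).erase 1, cs s * ch ω s := by
      refine sum_congr rfl fun s hs => ?_
      simp only [d]
      rw [if_neg (ne_of_mem_erase hs)]
    rw [e3]
    have e4 : d 1 = cs 1 - b := if_pos rfl
    rw [e4, ch_one]
    ring
  simp_rw [hY]
  rw [ms (sqf N) (fun s hs => (mem_filter.1 hs).2) d]
  calc ∑ s ∈ (sqf N).filter (fun s => N < 2 * s), KK ε X s 1 ^ 2 / s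
      = ∑ s ∈ (sqf N).filter (fun s => N < 2 * s), d s ^ 2 := by
        refine sum_congr rfl fun s hs => ?_
        rw [mem_filter] at hs
        obtain ⟨hs1, hs2⟩ := hs
        have hs3 : Squarefree s := (mem_filter.1 hs1).2
        have hs4 := mem_Icc.1 (mem_filter.1 hs1).1
        have hne : s ≠ 1 := by omega
        have hfil : (Icc 1 N).filter (fun m => sfp m = s) = {s} := by
          ext m
          rw [mem_filter, mem_singleton, mem_Icc]
          constructor
          · rintro ⟨⟨hm1, hm2⟩, hm3⟩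
            have h5 := sfp_mul m hm1
            rw [hm3] at h5
            have h6 := rt_pos m
            by_cases h7 : rt m = 1
            · rw [h7] at h5
              omega
            · exfalso
              have h8 : 2 ≤ rt m := by omega
              have h9 : 2 ^ 2 ≤ rt m ^ 2 := Nat.pow_le_pow_left h8 2
              have h10 : s * 2 ^ 2 ≤ s * rt m ^ 2 := Nat.mul_le_mul_left s h9
              omega
          · rintro rfl
            exact ⟨hs4, sfp_self hs3⟩
        have hK : KK ε X s 1 = K s := by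
          unfold KK
          simp only [K]
          rw [filter_true_of_mem]
          intro n _
          exact Nat.coprime_one_right n
        simp only [d]
        rw [if_neg hne]
        simp only [cs]
        rw [hfil, sum_singleton, hK, div_pow, Real.sq_sqrt (Nat.cast_nonneg _)]
    _ ≤ ∑ s ∈ sqf N, d s ^ 2 :=
        sum_le_sum_of_subset_of_nonneg (filter_subset _ _) fun s _ _ => sq_nonneg _

end

end Pool.Agent.Q26.TQ
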