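import Pool.Agent.Q26.TQ.LovA
import Pool.Agent.Q26.TQ.LovB
import Pool.Agent.Q26.TQ.Low

set_option autoImplicit false

/-! Project TQ, job LOV. -/

namespace Pool.Agent.Q26.TQ

open Finset Filter Topology MeasureTheory Pool.Agent.H306R2.RZ Pool.Agent.Q255.TQ
open Pool.Agent.Q122.FM (kron IsFund)

noncomputable section

lemma kron_odd (D : ℤ) {s : ℕ} (hs : Odd s) : kron D s = jacobiSym D s := by
  unfold kron
  have h1 : s.factorization 2 = 0 := by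
    refine Nat.factorization_eq_zero_of_not_dvd ?_
    rw [← even_iff_two_dvd]
    exact Nat.not_even_iff_odd.2 hs
  rw [h1, pow_zero, one_mul, pow_zero, Nat.div_one]

/-- the class modulo four of the odd fundamental discriminants -/
def rr (ε : ℤ) : ℕ := if ε = 1 then 1 else 3

lemma rr_odd (ε : ℤ) : Odd (rr ε) := by
  unfold rr
  split_ifs <;> decide

/-- odd fundamental discriminants -/
def Nn (ε : ℤ) (X : ℕ) : Finset ℕ := (Ioc 0 X).filter (fun n => n ≡ rr ε [MOD 4] ∧ Squarefree n)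

lemma Nn_sub {ε : ℤ} (hε : ε = 1 ∨ ε = -1) (X : ℕ) : Nn ε X ⊆ Fs ε X := by
  intro n hn
  unfold Nn at hn
  rw [mem_filter, mem_Ioc] at hn
  obtain ⟨⟨h1, h2⟩, h3, h4⟩ := hn
  rw [mem_Fs]
  refine ⟨⟨h1, h2⟩, Or.inl ⟨?_, ?_⟩⟩
  · have h5 : n % 4 = rr ε % 4 := h3
    unfold rr at h5
    rcases hε with h | h
    · rw [h, if_pos rfl] at h5
      rw [h]
      omega
    · rw [h, if_neg (by norm_num)] at h5
      rw [h]
      omega
  · rw [← Int.squarefree_natAbs, natAbs_mul hε]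
    exact h4

lemma sq4 {x : ℕ} (h : IsSquare (4 * x)) : IsSquare x := by
  obtain ⟨k, hk⟩ := h
  have h2 : Even k := by
    by_contra h3
    rw [Nat.not_even_iff_odd] at h3
    have h4 : Odd (k * k) := h3.mul h3
    rw [← hk] at h4
    exact (Nat.not_even_iff_odd.2 h4) ⟨2 * x, by ring⟩
  obtain ⟨j, rfl⟩ := h2
  exact ⟨j, by nlinarith⟩

lemma fund_cases {ε : ℤ} (hε : ε = 1 ∨ ε = -1) {n : ℕ} (h : IsFund (ε * (n : ℤ))) :
    (Squarefree n ∧ (ε * (n : ℤ)) % 4 = 1) ∨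
      ∃ m : ℕ, n = 4 * m ∧ Squarefree m ∧ ((ε * (m : ℤ)) % 4 = 2 ∨ (ε * (m : ℤ)) % 4 = 3) := by
  rcases h with ⟨h1, h2⟩ | ⟨m, h1, h2, h3⟩
  · left
    rw [← Int.squarefree_natAbs, natAbs_mul hε] at h2
    exact ⟨h2, h1⟩
  · right
    refine ⟨m.natAbs, ?_, Int.squarefree_natAbs.2 h3, ?_⟩
    · have h4 := congrArg Int.natAbs h1
      rw [natAbs_mul hε, Int.natAbs_mul] at h4
      exact h4
    · have h5 : ε * (m.natAbs : ℤ) = m := by
        have h6 : (n : ℤ) = ε * (4 * m) := by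
          rw [← h1]
          rcases hε with h | h <;> rw [h] <;> ring
        have h7 : (0 : ℤ) ≤ ε * (4 * m) := h6 ▸ Int.natCast_nonneg n
        rcases hε with h | h
        · rw [h] at h7 ⊢
          omega
        · rw [h] at h7 ⊢
          omega
      rw [h5]
      exact h2

lemma not_sq {ε : ℤ} (hε : ε = 1 ∨ ε = -1) {X n n' : ℕ} (hn : n ∈ Fs ε X) (hn' : n' ∈ Fs ε X)
    (hne : n ≠ n') : ¬ IsSquare (n * n') := by
  intro hsq
  rcases fund_cases hε (mem_Fs.1 hn).2 with ⟨h1, h2⟩ | ⟨m, rfl, h1, h2⟩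
  · rcases fund_cases hε (mem_Fs.1 hn').2 with ⟨h3, h4⟩ | ⟨m', rfl, h3, h4⟩
    · exact hne (eq_of_sq h1 h3 hsq)
    · have h5 : IsSquare (n * m') := sq4 (by rwa [show 4 * (n * m') = n * (4 * m') by ring])
      have h6 := eq_of_sq h1 h3 h5
      subst h6
      omega
  · rcases fund_cases hε (mem_Fs.1 hn').2 with ⟨h3, h4⟩ | ⟨m', rfl, h3, h4⟩
    · have h5 : IsSquare (m * n') := sq4 (by rwa [show 4 * (m * n') = 4 * m * n' by ring])
      have h6 := eq_of_sq h1 h3 h5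
      subst h6
      omega
    · have h5 : IsSquare (m * m') := sq4 (sq4
        (by rwa [show 4 * (4 * (m * m')) = 4 * m * (4 * m') by ring]))
      exact hne (by rw [eq_of_sq h1 h3 h5])

lemma odd_of_Sq {N s : ℕ} (hs : s ∈ Sq N) : Odd s := by
  unfold Sq at hs
  rw [mem_filter] at hs
  rw [Nat.odd_iff]
  exact hs.2.1

lemma kk_mul {ε : ℤ} (hε : ε = 1 ∨ ε = -1) (n n' : ℕ) {s : ℕ} (hs : Odd s) :
    (kron (ε * (n : ℤ)) s : ℝ) * (kron (ε * (n' : ℤ)) s : ℝ) = (jf (n * n') s : ℝ) := by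
  rw [kron_odd _ hs, kron_odd _ hs]
  unfold jf
  rw [if_pos hs, ← Int.cast_mul, ← jacobiSym.mul_left]
  congr 2
  rcases hε with h | h <;> rw [h] <;> push_cast <;> ring

lemma diag_ge {ε : ℤ} (hε : ε = 1 ∨ ε = -1) (n : ℕ) {s : ℕ} (hs : Odd s) :
    (if n.Coprime s then (1 : ℝ) else 0) ≤
      (kron (ε * (n : ℤ)) s : ℝ) * (kron (ε * (n : ℤ)) s : ℝ) := by
  split_ifs with h
  · rw [kron_odd _ hs, ← Int.cast_mul, ← sq, jacobiSym.sq_one]
    · simp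
    · rw [Int.gcd, natAbs_mul hε]
      exact h
  · exact mul_self_nonneg _

/-- the main inequality -/
theorem main {ε : ℤ} (hε : ε = 1 ∨ ε = -1) (X N A : ℕ) (hA : 1 ≤ A) :
    ((Nn ε X).card : ℝ) * ((Sq N).card : ℝ) -
      ∑ n ∈ Nn ε X, ∑ s ∈ Sq N, (if n.Coprime s then (0 : ℝ) else 1) -
      X * (X * (8 * (X : ℝ) ^ 2 * A + N / A)) ≤ ∑ s ∈ Sq N, KK ε X s 1 ^ 2 := by
  set B : ℝ := 8 * (X : ℝ) ^ 2 * A + N / A with hB
  have hB0 : 0 ≤ B := by positivity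
  let T : ℕ → ℕ → ℝ := fun n n' => ∑ s ∈ Sq N,
    (kron (ε * (n : ℤ)) s : ℝ) * (kron (ε * (n' : ℤ)) s : ℝ)
  have hcard : ((Fs ε X).card : ℝ) ≤ X := by
    have h1 : (Fs ε X).card ≤ (Icc 1 X).card := by
      refine card_le_card fun n hn => ?_
      rw [mem_Icc]
      exact (mem_Fs.1 hn).1
    rw [Nat.card_Icc, Nat.add_sub_cancel] at h1
    exact_mod_cast h1
  have e1 : ∑ s ∈ Sq N, KK ε X s 1 ^ 2 = ∑ n ∈ Fs ε X, ∑ n' ∈ Fs ε X, T n n' := by
    have h1 : ∀ s ∈ Sq N, KK ε X s 1 ^ 2 = ∑ n ∈ Fs ε X, ∑ n' ∈ Fs ε X,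
        (kron (ε * (n : ℤ)) s : ℝ) * (kron (ε * (n' : ℤ)) s : ℝ) := by
      intro s _
      have h2 : KK ε X s 1 = ∑ n ∈ Fs ε X, (kron (ε * (n : ℤ)) s : ℝ) := by
        unfold KK
        rw [filter_true_of_mem]
        intro n _
        exact Nat.coprime_one_right n
      rw [h2, sq, sum_mul_sum]
    rw [sum_congr rfl h1, sum_comm]
    refine sum_congr rfl fun n _ => ?_
    rw [sum_comm]
  have hoff : ∀ n ∈ Fs ε X, ∀ n' ∈ Fs ε X, n ≠ n' → |T n n'| ≤ B := by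
    intro n hn n' hn' hne
    have h1 : T n n' = ∑ s ∈ Sq N, (jf (n * n') s : ℝ) :=
      sum_congr rfl fun s hs => kk_mul hε n n' (odd_of_Sq hs)
    rw [h1]
    refine (sqf_sum (n * n') (not_sq hε hn hn' hne) N A hA).trans ?_
    have h2 : ((n * n' : ℕ) : ℝ) ≤ (X : ℝ) ^ 2 := by
      rw [sq]
      have h3 := (mem_Fs.1 hn).1.2
      have h4 := (mem_Fs.1 hn').1.2
      exact_mod_cast Nat.mul_le_mul h3 h4
    have hA0 : (0 : ℝ) ≤ A := Nat.cast_nonneg _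
    rw [hB]
    gcongr
  have hrow : ∀ n ∈ Fs ε X, T n n - X * B ≤ ∑ n' ∈ Fs ε X, T n n' := by
    intro n hn
    rw [← add_sum_erase _ _ hn]
    have h1 : |∑ n' ∈ (Fs ε X).erase n, T n n'| ≤ X * B := by
      refine (abs_sum_le_sum_abs _ _).trans ?_
      calc ∑ n' ∈ (Fs ε X).erase n, |T n n'| ≤ ∑ n' ∈ (Fs ε X).erase n, B :=
            sum_le_sum fun n' hn' => hoff n hn n' (mem_of_mem_erase hn')
              (ne_of_mem_erase hn').symm
        _ = (((Fs ε X).erase n).card : ℝ) * B := by rw [sum_const, nsmul_eq_mul]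
        _ ≤ X * B := by
          refine mul_le_mul_of_nonneg_right (le_trans ?_ hcard) hB0
          exact_mod_cast card_erase_le
    have h2 := neg_abs_le (∑ n' ∈ (Fs ε X).erase n, T n n')
    linarith
  have hdiag : ∀ n, ∑ s ∈ Sq N, (if n.Coprime s then (1 : ℝ) else 0) ≤ T n n := fun n =>
    sum_le_sum fun s hs => diag_ge hε n (odd_of_Sq hs)
  have hT0 : ∀ n, 0 ≤ T n n := fun n => sum_nonneg fun s _ => mul_self_nonneg _
  rw [e1]
  have h3 : ∑ n ∈ Fs ε X, (T n n - X * B) ≤ ∑ n ∈ Fs ε X, ∑ n' ∈ Fs ε X, T n n' :=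
    sum_le_sum hrow
  rw [sum_sub_distrib, sum_const, nsmul_eq_mul] at h3
  have h4 : ((Fs ε X).card : ℝ) * (X * B) ≤ X * (X * B) :=
    mul_le_mul_of_nonneg_right hcard (by positivity)
  have h5 : ∑ n ∈ Nn ε X, ∑ s ∈ Sq N, (if n.Coprime s then (1 : ℝ) else 0) ≤
      ∑ n ∈ Fs ε X, T n n :=
    (sum_le_sum fun n _ => hdiag n).trans
      (sum_le_sum_of_subset_of_nonneg (Nn_sub hε X) fun n _ _ => hT0 n)
  have h6 : ∑ n ∈ Nn ε X, ∑ s ∈ Sq N, (if n.Coprime s then (1 : ℝ) else 0) +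
      ∑ n ∈ Nn ε X, ∑ s ∈ Sq N, (if n.Coprime s then (0 : ℝ) else 1) =
      ((Nn ε X).card : ℝ) * ((Sq N).card : ℝ) := by
    rw [← sum_add_distrib]
    have h7 : ∀ n ∈ Nn ε X, (∑ s ∈ Sq N, (if n.Coprime s then (1 : ℝ) else 0) +
        ∑ s ∈ Sq N, (if n.Coprime s then (0 : ℝ) else 1)) = ((Sq N).card : ℝ) := by
      intro n _
      rw [← sum_add_distrib]
      have h8 : ∀ s ∈ Sq N, ((if n.Coprime s then (1 : ℝ) else 0) +
          (if n.Coprime s then (0 : ℝ) else 1)) = 1 := by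
        intro s _
        split_ifs <;> norm_num
      rw [sum_congr rfl h8]
      simp
    rw [sum_congr rfl h7, sum_const, nsmul_eq_mul]
  linarith

theorem lov : S_LOV := by
  refine ⟨1 / 100, by norm_num, 10 ^ 8, ?_⟩
  intro ε hε X N hX hN
  have hX1 : (10 : ℝ) ^ 8 ≤ X := by exact_mod_cast hX
  have hN1 : (X : ℝ) ^ 5 ≤ N := by exact_mod_cast hN
  have hXpos : 0 < X := by omega
  have hX0 : (0 : ℝ) < X := by exact_mod_cast hXpos
  set t : ℝ := Real.sqrt X with ht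
  set u : ℝ := Real.sqrt N with hu
  have ht2 : t ^ 2 = X := Real.sq_sqrt (Nat.cast_nonneg _)
  have hu2 : u ^ 2 = N := Real.sq_sqrt (Nat.cast_nonneg _)
  have ht1 : (10 : ℝ) ^ 4 ≤ t := by
    rw [ht]
    refine Real.le_sqrt_of_sq_le ?_
    calc ((10 : ℝ) ^ 4) ^ 2 = 10 ^ 8 := by norm_num
      _ ≤ (X : ℝ) := hX1
  have ht0 : 0 < t := by linarith [show (0 : ℝ) < 10 ^ 4 by norm_num]
  have hut : (X : ℝ) ^ 2 * t ≤ u := by
    rw [hu]
    refine Real.le_sqrt_of_sq_le ?_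
    calc ((X : ℝ) ^ 2 * t) ^ 2 = (X : ℝ) ^ 4 * t ^ 2 := by ring
      _ = (X : ℝ) ^ 5 := by rw [ht2]; ring
      _ ≤ N := hN1
  have hXX : (10 : ℝ) ^ 8 * X ≤ (X : ℝ) ^ 2 := by rw [sq]; gcongr
  have hu1 : (10 : ℝ) ^ 12 * X ≤ u := by
    calc (10 : ℝ) ^ 12 * X = (10 ^ 8 * X) * 10 ^ 4 := by ring
      _ ≤ (X : ℝ) ^ 2 * t := by gcongr
      _ ≤ u := hut
  have hu3 : (10 : ℝ) ^ 20 ≤ u := by
    calc (10 : ℝ) ^ 20 = 10 ^ 12 * 10 ^ 8 := by norm_num
      _ ≤ 10 ^ 12 * (X : ℝ) := by gcongr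
      _ ≤ u := hu1
  have hu0 : 0 < u := by linarith [show (0 : ℝ) < 10 ^ 20 by norm_num]
  have hNpos : (0 : ℝ) < N := by rw [← hu2]; positivity
  -- the parameter
  set A : ℕ := Nat.sqrt N / X with hAdef
  have hs1 : (Nat.sqrt N : ℝ) ≤ u := Real.nat_sqrt_le_real_sqrt
  have hs2 : u ≤ (Nat.sqrt N : ℝ) + 1 := Real.real_sqrt_le_nat_sqrt_succ
  have hA1 : (A : ℝ) ≤ u / X := by
    rw [hAdef]
    refine Nat.cast_div_le.trans ?_
    gcongr
  have hA2 : u / (2 * X) ≤ A := by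
    have h1 := Nat.div_add_mod (Nat.sqrt N) X
    have h2 := Nat.mod_lt (Nat.sqrt N) hXpos
    have h3 : (Nat.sqrt N : ℝ) ≤ X * A + X := by
      rw [← hAdef] at h1
      have : Nat.sqrt N ≤ X * A + X := by omega
      exact_mod_cast this
    rw [div_le_iff₀ (by positivity)]
    nlinarith
  have hAX : 1 ≤ u / (2 * X) := by
    rw [le_div_iff₀ (by positivity)]
    nlinarith
  have hA0 : (1 : ℝ) ≤ A := hAX.trans hA2
  have hA3 : 1 ≤ A := by exact_mod_cast hA0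
  -- the bound for the off-diagonal terms
  have hB : 8 * (X : ℝ) ^ 2 * A + N / A ≤ 10 * (X * u) := by
    have h1 : 8 * (X : ℝ) ^ 2 * A ≤ 8 * (X * u) := by
      calc 8 * (X : ℝ) ^ 2 * A ≤ 8 * (X : ℝ) ^ 2 * (u / X) := by gcongr
        _ = 8 * (X * u) := by field_simp
    have h2 : (N : ℝ) / A ≤ 2 * (X * u) := by
      calc (N : ℝ) / A ≤ N / (u / (2 * X)) := by gcongr
        _ = 2 * (X * u) := by
          rw [← hu2]
          field_simp
    linarith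
  have hoff : (X : ℝ) * (X * (8 * (X : ℝ) ^ 2 * A + N / A)) ≤ X * N / 1000 := by
    have h1 : (X : ℝ) * (X * (8 * (X : ℝ) ^ 2 * A + N / A)) ≤ X * (X * (10 * (X * u))) := by
      gcongr
    have h2 : (X : ℝ) * (X * (10 * (X * u))) * t ≤ 10 * (X * N) := by
      calc (X : ℝ) * (X * (10 * (X * u))) * t = 10 * X * u * ((X : ℝ) ^ 2 * t) := by ring
        _ ≤ 10 * X * u * u := by gcongr
        _ = 10 * (X * N) := by rw [← hu2]; ring
    have h3 : (X : ℝ) * (X * (10 * (X * u))) * 10 ^ 4 ≤ (X : ℝ) * (X * (10 * (X * u))) * t := by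
      gcongr
    linarith
  -- the diagonal
  have hw1 : (N : ℝ) / 2 ≤ (N : ℝ) - ((N / 2 : ℕ) : ℝ) := by
    have : ((N / 2 : ℕ) : ℝ) ≤ (N : ℝ) / 2 := by
      have h := Nat.cast_div_le (α := ℝ) (m := N) (n := 2)
      exact_mod_cast h
    linarith
  have hw2 : (N : ℝ) - ((N / 2 : ℕ) : ℝ) ≤ ((N : ℝ) + 1) / 2 := by
    have h1 : N ≤ 2 * (N / 2) + 1 := by omega
    have h2 : (N : ℝ) ≤ 2 * ((N / 2 : ℕ) : ℝ) + 1 := by exact_mod_cast h1
    linarith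
  have hα : 11 / 64 * (X : ℝ) ≤ ((Nn ε X).card : ℝ) := by
    have h1 := sqf_ge 0 X (rr ε) 4 (Or.inr rfl) (rr_odd ε) (Nat.zero_le _)
    push_cast at h1
    rw [sub_zero, ← ht] at h1
    have h2 : (Nn ε X).card =
        ((Ioc 0 X).filter (fun n => n ≡ rr ε [MOD 4] ∧ Squarefree n)).card := rfl
    rw [h2]
    have h3 : 10 ^ 4 * t ≤ (X : ℝ) := by
      rw [← ht2, sq]
      gcongr
    linarith
  have hβ : 11 / 64 * (N : ℝ) ≤ ((Sq N).card : ℝ) := by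
    have h1 := sqf_ge (N / 2) N 1 2 (Or.inl rfl) (by decide) (Nat.div_le_self _ _)
    rw [← hu] at h1
    have h2 : (Sq N).card =
        ((Ioc (N / 2) N).filter (fun n => n ≡ 1 [MOD 2] ∧ Squarefree n)).card := rfl
    rw [h2]
    have h3 : 10 ^ 4 * u ≤ (N : ℝ) := by
      rw [← hu2, sq]
      have : (10 : ℝ) ^ 4 ≤ u := by linarith [show (10 : ℝ) ^ 4 ≤ 10 ^ 20 by norm_num]
      gcongr
    have h4 : ((2 : ℕ) : ℝ) = 2 := by norm_num
    rw [h4] at h1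
    linarith
  have hαβ : 121 / 4096 * ((X : ℝ) * N) ≤ ((Nn ε X).card : ℝ) * ((Sq N).card : ℝ) := by
    calc 121 / 4096 * ((X : ℝ) * N) = (11 / 64 * (X : ℝ)) * (11 / 64 * (N : ℝ)) := by ring
      _ ≤ _ := by gcongr
  have hpairs := pairs X (N / 2) N (rr ε) (rr_odd ε) (Nat.div_le_self _ _) (Nn ε X) (Sq N) rfl rfl
  rw [← ht] at hpairs
  have hXN : (X : ℝ) + 1 ≤ N := by
    rw [← hu2]
    nlinarith
  have hpairs2 : (X : ℝ) * ((N : ℝ) - ((N / 2 : ℕ) : ℝ)) / 32 +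
      (X / 4 + ((N : ℝ) - ((N / 2 : ℕ) : ℝ)) / 2) * (t / 2) + X ≤
      1 / 64 * (X * N) + X * N / 10000 := by
    have h1 : (X : ℝ) * ((N : ℝ) - ((N / 2 : ℕ) : ℝ)) / 32 ≤ X * (((N : ℝ) + 1) / 2) / 32 := by
      gcongr
    have h2 : (X / 4 + ((N : ℝ) - ((N / 2 : ℕ) : ℝ)) / 2) * (t / 2) ≤
        (X / 4 + (((N : ℝ) + 1) / 2) / 2) * (t / 2) := by
      gcongr
    have h3 : (X / 4 + (((N : ℝ) + 1) / 2) / 2) * (t / 2) ≤ N * t / 4 := by
      nlinarith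
    have h4 : N * t * 10 ^ 4 ≤ X * N := by
      calc (N : ℝ) * t * 10 ^ 4 ≤ N * t * t := by gcongr
        _ = X * N := by rw [← ht2]; ring
    have h5 : (X : ℝ) * 10 ^ 8 ≤ X * N := by
      have : (10 : ℝ) ^ 8 ≤ N := by linarith
      gcongr
    linarith
  have hmain := main hε X N A hA3
  have hsum : 1 / 100 * ((X : ℝ) * N) ≤ ∑ s ∈ Sq N, KK ε X s 1 ^ 2 := by
    have h0 : 0 ≤ (X : ℝ) * N := by positivity
    linarith
  calc 1 / 100 * (X : ℝ) = (1 / 100 * ((X : ℝ) * N)) / N := by field_simp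
    _ ≤ (∑ s ∈ Sq N, KK ε X s 1 ^ 2) / N := by gcongr
    _ = ∑ s ∈ Sq N, KK ε X s 1 ^ 2 / N := by rw [sum_div]
    _ ≤ ∑ s ∈ Sq N, KK ε X s 1 ^ 2 / s := by
        refine sum_le_sum fun s hs => ?_
        unfold Sq at hs
        rw [mem_filter, mem_Ioc] at hs
        have h1 : (0 : ℝ) < s := by
          have : 0 < s := by omega
          exact_mod_cast this
        have h2 : (s : ℝ) ≤ N := by exact_mod_cast hs.1.2
        gcongr
    _ ≤ ∑ s ∈ (sqf N).filter (fun s => N < 2 * s), KK ε X s 1 ^ 2 / s := by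
        refine sum_le_sum_of_subset_of_nonneg ?_ fun s _ _ => by positivity
        intro s hs
        unfold Sq at hs
        rw [mem_filter, mem_Ioc] at hs
        unfold sqf
        rw [mem_filter, mem_filter, mem_Icc]
        refine ⟨⟨⟨by omega, hs.1.2⟩, hs.2.2⟩, by omega⟩

theorem low' : S_LOW := low lov

end

end Pool.Agent.Q26.TQ
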