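import Mathlib
import Pool.Agent.Helper919.NonRes
import Pool.Agent.Q210.TQ.SQM

set_option autoImplicit false

/-! Project TQ, job LOV: sums of a real character over the squarefree numbers. -/

namespace Pool.Agent.Q26.TQ

open Finset

/-- the function `n ↦ (M/n)` for odd `n`, `0` for even `n` -/
def jf (M n : ℕ) : ℤ := if Odd n then jacobiSym M n else 0

lemma jf_mod (M : ℕ) (n : ℕ) : jf M (n % (4 * M)) = jf M n := by
  unfold jf
  have hpar : Odd (n % (4 * M)) ↔ Odd n := by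
    rw [Nat.odd_iff, Nat.odd_iff]
    have : n % (4 * M) % 2 = n % 2 := by
      rw [Nat.mod_mod_of_dvd]
      exact ⟨2 * M, by ring⟩
    rw [this]
  by_cases h : Odd n
  · rw [if_pos h, if_pos (hpar.2 h)]
    exact (jacobiSym.mod_right (M : ℤ) h).symm
  · rw [if_neg h, if_neg (fun h' => h (hpar.1 h'))]

lemma jf_mul (M : ℕ) (m n : ℕ) : jf M (m * n) = jf M m * jf M n := by
  unfold jf
  by_cases hm : Odd m
  · by_cases hn : Odd n
    · rw [if_pos hm, if_pos hn, if_pos (hm.mul hn)]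
      have : NeZero m := ⟨hm.pos.ne'⟩
      have : NeZero n := ⟨hn.pos.ne'⟩
      exact jacobiSym.mul_right (M : ℤ) m n
    · rw [if_neg hn, if_neg (fun h => hn (Nat.odd_mul.1 h).2), mul_zero]
  · rw [if_neg hm, if_neg (fun h => hm (Nat.odd_mul.1 h).1), zero_mul]

lemma abs_jf (M n : ℕ) : |(jf M n : ℝ)| ≤ 1 := by
  unfold jf
  split_ifs
  · rcases jacobiSym.trichotomy (M : ℤ) n with h | h | h <;> rw [h] <;> simp
  · simp

lemma exists_neg (M : ℕ) (hM : ¬ IsSquare M) : ∃ t : ℕ, t.Coprime (4 * M) ∧ jf M t = -1 := by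
  have h1 : ¬ IsSquare (M : ℤ) := by
    rw [Int.isSquare_natCast_iff]
    exact hM
  obtain ⟨t, ht, hj⟩ := Pool.Agent.Helper919.exists_jacobi_neg_one (M : ℤ) h1
  refine ⟨t, ?_, by unfold jf; rw [if_pos ht, hj]⟩
  have h4 : t.Coprime 4 := by
    have : t.Coprime 2 := (Nat.coprime_two_right).2 ht
    exact Nat.Coprime.mul_right this this
  refine Nat.Coprime.mul_right h4 ?_
  by_contra hne
  have : NeZero t := ⟨ht.pos.ne'⟩
  have h0 : jacobiSym (M : ℤ) t = 0 := by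
    rw [jacobiSym.eq_zero_iff_not_coprime, Int.gcd_natCast_natCast]
    exact fun h => hne (Nat.Coprime.symm h)
  rw [h0] at hj
  norm_num at hj

lemma full_sum (M : ℕ) (hM : ¬ IsSquare M) : ∑ i ∈ range (4 * M), jf M i = 0 := by
  have hM0 : M ≠ 0 := by
    rintro rfl
    exact hM ⟨0, rfl⟩
  have : NeZero (4 * M) := ⟨by omega⟩
  obtain ⟨t, htc, ht⟩ := exists_neg M hM
  let F : ZMod (4 * M) → ℤ := fun x => jf M x.val
  have hF : ∀ n : ℕ, F (n : ZMod (4 * M)) = jf M n := by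
    intro n
    show jf M ((n : ZMod (4 * M)).val) = jf M n
    rw [ZMod.val_natCast, jf_mod]
  have hmul : ∀ x : ZMod (4 * M), F ((t : ZMod (4 * M)) * x) = - F x := by
    intro x
    have h1 : (t : ZMod (4 * M)) * x = ((t * x.val : ℕ) : ZMod (4 * M)) := by
      push_cast
      rw [ZMod.natCast_zmod_val]
    rw [h1, hF, jf_mul, ht]
    show -1 * F x = - F x
    ring
  obtain ⟨u, hu⟩ : IsUnit (t : ZMod (4 * M)) := (ZMod.isUnit_iff_coprime t (4 * M)).2 htc
  have hzero : ∑ x : ZMod (4 * M), F x = 0 := by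
    have h1 : ∑ x : ZMod (4 * M), F ((t : ZMod (4 * M)) * x) = ∑ x : ZMod (4 * M), F x := by
      rw [← hu]
      exact (Equiv.sum_comp (Units.mulLeft u) F)
    simp only [hmul, Finset.sum_neg_distrib] at h1
    linarith
  rw [← hzero]
  refine Finset.sum_nbij' (fun i : ℕ => (i : ZMod (4 * M))) (fun x : ZMod (4 * M) => x.val)
    ?_ ?_ ?_ ?_ ?_
  · intro i _
    exact Finset.mem_univ _
  · intro x _
    exact Finset.mem_range.2 (ZMod.val_lt x)
  · intro i hi
    exact ZMod.val_natCast_of_lt (Finset.mem_range.1 hi)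
  · intro x _
    exact ZMod.natCast_zmod_val x
  · intro i _
    rw [hF]

lemma range_sum (M : ℕ) (hM : ¬ IsSquare M) (L : ℕ) :
    |∑ i ∈ range L, (jf M i : ℝ)| ≤ 4 * M := by
  have hM0 : M ≠ 0 := by
    rintro rfl
    exact hM ⟨0, rfl⟩
  induction L using Nat.strong_induction_on with
  | _ L ih =>
    rcases Nat.lt_or_ge L (4 * M) with h | h
    · calc |∑ i ∈ range L, (jf M i : ℝ)| ≤ ∑ i ∈ range L, |(jf M i : ℝ)| :=
            Finset.abs_sum_le_sum_abs _ _
        _ ≤ ∑ i ∈ range L, (1 : ℝ) := Finset.sum_le_sum (fun j _ => abs_jf M j)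
        _ = L := by simp
        _ ≤ 4 * M := by exact_mod_cast h.le
    · obtain ⟨K, rfl⟩ : ∃ K, L = 4 * M + K := ⟨L - 4 * M, by omega⟩
      have h1 : ∑ i ∈ range (4 * M), (jf M i : ℝ) = 0 := by
        have := full_sum M hM
        exact_mod_cast this
      have h2 : ∀ i, jf M (4 * M + i) = jf M i := by
        intro i
        rw [← jf_mod M (4 * M + i), Nat.add_mod_left, jf_mod]
      rw [Finset.sum_range_add, h1, zero_add]
      simp only [h2]
      exact ih K (by omega)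

/-- character sums -/
lemma Ioc_sum (M : ℕ) (hM : ¬ IsSquare M) (a b : ℕ) :
    |∑ i ∈ Ioc a b, (jf M i : ℝ)| ≤ 8 * M := by
  rcases Nat.lt_or_ge b a with h | h
  · rw [Ioc_eq_empty (by omega), sum_empty, abs_zero]
    positivity
  · have h1 : Ioc a b = Ico (a + 1) (b + 1) := by
      ext x
      rw [mem_Ioc, mem_Ico]
      omega
    rw [h1, Finset.sum_Ico_eq_sub _ (by omega)]
    have h2 := range_sum M hM (b + 1)
    have h3 := range_sum M hM (a + 1)
    have h4 := abs_sub (∑ i ∈ range (b + 1), (jf M i : ℝ)) (∑ i ∈ range (a + 1), (jf M i : ℝ))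
    linarith

/-- the odd squarefree numbers in `(N/2, N]` -/
def Sq (N : ℕ) : Finset ℕ := (Ioc (N / 2) N).filter (fun s => s ≡ 1 [MOD 2] ∧ Squarefree s)

lemma inner_eq (M N a : ℕ) (ha : 1 ≤ a) :
    ∑ s ∈ (Ioc (N / 2) N).filter (fun s => a ^ 2 ∣ s), (jf M s : ℝ) =
      (jf M (a ^ 2) : ℝ) * ∑ m ∈ Ioc (N / 2 / a ^ 2) (N / a ^ 2), (jf M m : ℝ) := by
  have ha2 : 0 < a ^ 2 := by positivity
  rw [mul_sum]
  refine Finset.sum_bij' (fun s _ => s / a ^ 2) (fun m _ => a ^ 2 * m) ?_ ?_ ?_ ?_ ?_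
  · intro s hs
    rw [mem_filter, mem_Ioc] at hs
    obtain ⟨⟨h1, h2⟩, m, rfl⟩ := hs
    rw [Nat.mul_div_cancel_left _ ha2, mem_Ioc, Nat.div_lt_iff_lt_mul ha2,
      Nat.le_div_iff_mul_le ha2]
    rw [mul_comm] at h1 h2
    exact ⟨h1, h2⟩
  · intro m hm
    rw [mem_Ioc, Nat.div_lt_iff_lt_mul ha2, Nat.le_div_iff_mul_le ha2, mul_comm] at hm
    rw [mem_filter, mem_Ioc]
    exact ⟨hm, dvd_mul_right _ _⟩
  · intro s hs
    rw [mem_filter] at hs
    exact Nat.mul_div_cancel' hs.2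
  · intro m _
    exact Nat.mul_div_cancel_left _ ha2
  · intro s hs
    rw [mem_filter] at hs
    have h1 : s = a ^ 2 * (s / a ^ 2) := (Nat.mul_div_cancel' hs.2).symm
    conv_lhs => rw [h1]
    rw [jf_mul]
    push_cast
    rfl

/-- the sum over the squarefree numbers -/
theorem sqf_sum (M : ℕ) (hM : ¬ IsSquare M) (N A : ℕ) (hA : 1 ≤ A) :
    |∑ s ∈ Sq N, (jf M s : ℝ)| ≤ 8 * M * A + N / A := by
  have hA0 : (0 : ℝ) < A := by exact_mod_cast hA
  have e1 : ∑ s ∈ Sq N, (jf M s : ℝ) = ∑ a ∈ Icc 1 N, ((ArithmeticFunction.moebius a : ℤ) : ℝ) *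
      ∑ s ∈ (Ioc (N / 2) N).filter (fun s => a ^ 2 ∣ s), (jf M s : ℝ) := by
    have h1 : ∀ s ∈ Ioc (N / 2) N, (if s ≡ 1 [MOD 2] ∧ Squarefree s then (jf M s : ℝ) else 0) =
        ∑ a ∈ Icc 1 N, (if a ^ 2 ∣ s then ((ArithmeticFunction.moebius a : ℤ) : ℝ) else 0) *
          (jf M s : ℝ) := by
      intro s hs
      rw [mem_Ioc] at hs
      rw [← Finset.sum_mul, ← Pool.Agent.Q210.TQ.sqf_ind N s (by omega) hs.2]
      by_cases h2 : s ≡ 1 [MOD 2]
      · by_cases h3 : Squarefree s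
        · rw [if_pos ⟨h2, h3⟩, if_pos h3, one_mul]
        · rw [if_neg fun h => h3 h.2, if_neg h3, zero_mul]
      · rw [if_neg fun h => h2 h.1]
        have h4 : jf M s = 0 := by
          unfold jf
          rw [if_neg]
          intro h5
          exact h2 (Nat.odd_iff.1 h5)
        rw [h4]
        simp
    unfold Sq
    rw [sum_filter, sum_congr rfl h1, sum_comm]
    refine sum_congr rfl fun a _ => ?_
    rw [sum_filter, mul_sum]
    refine sum_congr rfl fun s _ => ?_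
    split_ifs <;> simp
  rw [e1]
  have h2 : ∀ a ∈ Icc 1 N, |((ArithmeticFunction.moebius a : ℤ) : ℝ) *
      ∑ s ∈ (Ioc (N / 2) N).filter (fun s => a ^ 2 ∣ s), (jf M s : ℝ)| ≤
      (if a ≤ A then 8 * (M : ℝ) else 0) + (if A < a then (N : ℝ) * ((a : ℝ) ^ 2)⁻¹ else 0) := by
    intro a ha
    rw [mem_Icc] at ha
    rw [inner_eq M N a ha.1, abs_mul, abs_mul]
    have hmu : |((ArithmeticFunction.moebius a : ℤ) : ℝ)| ≤ 1 := by
      have := ArithmeticFunction.abs_moebius_le_one (n := a)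
      exact_mod_cast this
    have h3 : |((ArithmeticFunction.moebius a : ℤ) : ℝ)| * (|(jf M (a ^ 2) : ℝ)| *
        |∑ m ∈ Ioc (N / 2 / a ^ 2) (N / a ^ 2), (jf M m : ℝ)|) ≤
        |∑ m ∈ Ioc (N / 2 / a ^ 2) (N / a ^ 2), (jf M m : ℝ)| := by
      have h4 := mul_le_mul (abs_jf M (a ^ 2))
        (le_refl |∑ m ∈ Ioc (N / 2 / a ^ 2) (N / a ^ 2), (jf M m : ℝ)|) (abs_nonneg _) zero_le_one
      have h5 := mul_le_mul hmu h4 (by positivity) zero_le_one
      simpa only [one_mul] using h5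
    refine h3.trans ?_
    by_cases h4 : a ≤ A
    · rw [if_pos h4, if_neg (by omega), add_zero]
      exact Ioc_sum M hM _ _
    · rw [if_neg h4, if_pos (by omega), zero_add]
      calc |∑ m ∈ Ioc (N / 2 / a ^ 2) (N / a ^ 2), (jf M m : ℝ)|
          ≤ ∑ m ∈ Ioc (N / 2 / a ^ 2) (N / a ^ 2), |(jf M m : ℝ)| := abs_sum_le_sum_abs _ _
        _ ≤ ∑ m ∈ Ioc (N / 2 / a ^ 2) (N / a ^ 2), (1 : ℝ) := sum_le_sum fun m _ => abs_jf M m
        _ = ((N / a ^ 2 - N / 2 / a ^ 2 : ℕ) : ℝ) := by simp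
        _ ≤ ((N / a ^ 2 : ℕ) : ℝ) := by exact_mod_cast Nat.sub_le _ _
        _ ≤ (N : ℝ) / ((a ^ 2 : ℕ) : ℝ) := Nat.cast_div_le
        _ = (N : ℝ) * ((a : ℝ) ^ 2)⁻¹ := by push_cast; rw [div_eq_mul_inv]
  refine (abs_sum_le_sum_abs _ _).trans ((sum_le_sum h2).trans ?_)
  rw [sum_add_distrib]
  refine add_le_add ?_ ?_
  · rw [← sum_filter, sum_const, nsmul_eq_mul]
    have h3 : (((Icc 1 N).filter (fun a => a ≤ A)).card : ℝ) ≤ A := by
      have h4 : ((Icc 1 N).filter (fun a => a ≤ A)).card ≤ (Icc 1 A).card := by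
        refine card_le_card fun a ha => ?_
        rw [mem_filter, mem_Icc] at ha
        rw [mem_Icc]
        exact ⟨ha.1.1, ha.2⟩
      rw [Nat.card_Icc, Nat.add_sub_cancel] at h4
      exact_mod_cast h4
    nlinarith [Nat.cast_nonneg (α := ℝ) M]
  · rw [← sum_filter, ← mul_sum, div_eq_mul_inv]
    refine mul_le_mul_of_nonneg_left ?_ (Nat.cast_nonneg _)
    rcases Nat.lt_or_ge N A with h5 | h5
    · rw [filter_false_of_mem, sum_empty]
      · positivity
      · intro a ha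
        rw [mem_Icc] at ha
        omega
    · have h6 : (Icc 1 N).filter (fun a => A < a) = Ioc A N := by
        ext a
        rw [mem_filter, mem_Icc, mem_Ioc]
        omega
      rw [h6]
      have h7 := sum_Ioc_inv_sq_le_sub (α := ℝ) (show A ≠ 0 by omega) h5
      have h8 : (0 : ℝ) ≤ (N : ℝ)⁻¹ := by positivity
      linarith

end Pool.Agent.Q26.TQ
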